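import Pool.Agent.H72.SBP.Targets

/-!
Descent: instability over a large field implies instability over the algebraically closed field
of definition.
-/

set_option autoImplicit false

open Module

namespace Pool.Agent.H34.SBP

open Pool.Agent.H72.HR Pool.Agent.H72.SBP
open Pool.Agent.H72.BF (T_SPC)

theorem dsc_spec (h : T_SPC) {K F ι : Type} [Field K] [IsAlgClosed K] [Field F] [Algebra K F]
    [Fintype ι] (y : ι → F) : ∃ a : ι → K, ∀ g : MvPolynomial ι K,
      MvPolynomial.aeval y g = 0 → MvPolynomial.eval a g = 0 := by
  classical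
  let e : ι ≃ Fin (Fintype.card ι) := Fintype.equivFin ι
  obtain ⟨a, ha, _⟩ := h K F (Fintype.card ι) (y ∘ e.symm) 1 (by simp)
  refine ⟨a ∘ e, fun g hg => ?_⟩
  have h1 := ha (MvPolynomial.rename e g) (by
    rw [MvPolynomial.aeval_rename, Function.comp_assoc, e.symm_comp_self, Function.comp_id]
    exact hg)
  rw [MvPolynomial.eval_rename] at h1
  exact h1

theorem dsc_indep {K : Type} [Field K] {u c : ℕ} {b : Fin u → Fin c → K} {J : Fin u → Fin c}
    (h : ∀ i j, b i (J j) = if i = j then 1 else 0) : LinearIndependent K b := by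
  rw [Fintype.linearIndependent_iff]
  intro g hg j
  have h1 := congrFun hg (J j)
  rw [Finset.sum_apply] at h1
  simp only [Pi.smul_apply, h, smul_eq_mul, mul_ite, mul_one, mul_zero, Pi.zero_apply] at h1
  simpa using h1

theorem dsc (h : T_SPC) : T_DSC := by
  classical
  intro K F _ _ _ _ n l c u m A J I b y hb hy hby
  obtain ⟨a, ha⟩ := dsc_spec h (K := K)
    (Sum.elim (fun p : Fin u × Fin c => b p.1 p.2) (fun p : Fin m × Fin l => y p.1 p.2))
  set b' : Fin u → Fin c → K := fun i k => a (Sum.inl (i, k)) with hb'
  set y' : Fin m → Fin l → K := fun i p => a (Sum.inr (i, p)) with hy'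
  have e1 : ∀ i j, b' i (J j) = if i = j then 1 else 0 := by
    intro i j
    have h1 := ha (MvPolynomial.X (Sum.inl (i, J j)) -
      MvPolynomial.C (if i = j then (1 : K) else 0)) (by
        rw [map_sub, MvPolynomial.aeval_X, MvPolynomial.aeval_C, Sum.elim_inl]
        simp only
        rw [hb i j]
        split_ifs <;> simp)
    rw [map_sub, MvPolynomial.eval_X, MvPolynomial.eval_C] at h1
    exact sub_eq_zero.1 h1
  have e2 : ∀ i j, y' i (I j) = if i = j then 1 else 0 := by
    intro i j
    have h1 := ha (MvPolynomial.X (Sum.inr (i, I j)) -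
      MvPolynomial.C (if i = j then (1 : K) else 0)) (by
        rw [map_sub, MvPolynomial.aeval_X, MvPolynomial.aeval_C, Sum.elim_inr]
        simp only
        rw [hy i j]
        split_ifs <;> simp)
    rw [map_sub, MvPolynomial.eval_X, MvPolynomial.eval_C] at h1
    exact sub_eq_zero.1 h1
  have e3 : ∀ (i : Fin m) (k : Fin (n + 1)) (j : Fin c), Matrix.vecMul (y' i) (A k) j =
      ∑ s, Matrix.vecMul (y' i) (A k) (J s) * b' s j := by
    intro i k j
    have h1 := ha ((∑ p, MvPolynomial.X (Sum.inr (i, p)) * MvPolynomial.C (A k p j)) -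
      ∑ s, (∑ p, MvPolynomial.X (Sum.inr (i, p)) * MvPolynomial.C (A k p (J s))) *
        MvPolynomial.X (Sum.inl (s, j))) (by
        have h2 := hby i k j
        simp only [Matrix.vecMul, dotProduct, Matrix.map_apply] at h2
        rw [map_sub, map_sum, map_sum]
        simp only [map_mul, map_sum, MvPolynomial.aeval_X, MvPolynomial.aeval_C, Sum.elim_inl,
          Sum.elim_inr]
        rw [h2, sub_self])
    rw [map_sub, map_sum, map_sum] at h1
    simp only [map_mul, map_sum, MvPolynomial.eval_X, MvPolynomial.eval_C] at h1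
    simp only [Matrix.vecMul, dotProduct]
    exact sub_eq_zero.1 h1
  refine ⟨Submodule.span K (Set.range b'), ?_, ?_⟩
  · rw [finrank_span_eq_card (dsc_indep e1), Fintype.card_fin]
  · have hmem : ∀ i, y' i ∈ XiK A (Submodule.span K (Set.range b')) := by
      intro i
      unfold XiK
      rw [Submodule.mem_iInf]
      intro k
      rw [Submodule.mem_comap]
      have h2 : Matrix.vecMulLinear (A k) (y' i) =
          ∑ s, Matrix.vecMul (y' i) (A k) (J s) • b' s := by
        funext j
        rw [Finset.sum_apply]
        simp only [Matrix.vecMulLinear_apply, Pi.smul_apply, smul_eq_mul]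
        exact e3 i k j
      rw [h2]
      exact Submodule.sum_mem _ fun s _ =>
        Submodule.smul_mem _ _ (Submodule.subset_span ⟨s, rfl⟩)
    have hli : LinearIndependent K
        (fun i => (⟨y' i, hmem i⟩ : XiK A (Submodule.span K (Set.range b')))) := by
      refine LinearIndependent.of_comp (XiK A (Submodule.span K (Set.range b'))).subtype ?_
      exact dsc_indep e2
    have h3 := hli.fintype_card_le_finrank
    rwa [Fintype.card_fin] at h3

end Pool.Agent.H34.SBP
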